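import Pool.Agent.HAR.Stmts

/-!
# HAR, row FIN: the main theorem (helper75)
-/

namespace Pool.Agent.HAR.H75

open Finset Filter Topology Pool.Agent.HAR

noncomputable section

theorem hP_all (P : GProp) (hP' : ∀ (V : Type) (_ : Finite V) (G : SimpleGraph V), P.mem V G)
    {V : Type} [Fintype V] [DecidableEq V] (G H : SimpleGraph V) (i : ℕ) : hP P G i = hP P H i := by
  unfold hP
  refine Nat.card_congr (Equiv.subtypeEquivRight fun π => ?_)
  constructor
  · rintro ⟨h, -⟩
    exact ⟨h, fun B _ => hP' _ _ _⟩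
  · rintro ⟨h, -⟩
    exact ⟨h, fun B _ => hP' _ _ _⟩

theorem hpol_all (P : GProp) (hP' : ∀ (V : Type) (_ : Finite V) (G : SimpleGraph V), P.mem V G)
    {V : Type} [Fintype V] [DecidableEq V] (G H : SimpleGraph V) : hpol P G = hpol P H := by
  unfold hpol
  refine Finset.sum_congr rfl fun i _ => ?_
  rw [hP_all P hP' G H i]

/-- row FIN -/
theorem fin (avg : AvgStmt) (glb : GlbStmt) (trn : TrnStmt) : FinStmt := by
  classical
  obtain ⟨c, hc, havg⟩ := avg
  obtain ⟨n0, hn0⟩ := eventually_atTop.1 havg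
  -- one property
  obtain ⟨x, hx⟩ := glb Cl (fun n => Cn n) (fun n a => a.1)
    (fun n y => n0 ≤ n → ¬ (Real.exp (-(c * n)) * Nat.card (SimpleGraph (Fin n)) <
      (Nat.card {G : SimpleGraph (Fin n) // Mate y G} : ℝ))) (fun n => (1 / 2) ^ (n + 2))
    (fun n => Subtype.val_injective) (fun n => by positivity)
    (by
      have h := (summable_geometric_two).mul_right ((1 / 2 : ℝ) ^ 2)
      refine h.congr fun n => ?_
      rw [pow_add])
    (by
      have h : ∑' n : ℕ, (1 / 2 : ℝ) ^ (n + 2) = 1 / 2 := by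
        have h1 : ∀ n : ℕ, (1 / 2 : ℝ) ^ (n + 2) = (1 / 2) ^ n * (1 / 4) := by
          intro n
          rw [pow_add]
          norm_num
        simp_rw [h1]
        rw [tsum_mul_right, tsum_geometric_two]
        norm_num
      rw [h]
      norm_num)
    (by
      intro n
      by_cases h : n0 ≤ n
      · have h1 := hn0 n h
        refine le_trans (le_of_eq ?_) h1
        congr 1
        funext y
        simp only [h, forall_const, not_not]
      · have h1 : pr (fun y : Cn n → Bool => ¬ (n0 ≤ n →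
            ¬ (Real.exp (-(c * n)) * Nat.card (SimpleGraph (Fin n)) <
              (Nat.card {G : SimpleGraph (Fin n) // Mate y G} : ℝ)))) = 0 := by
          unfold pr
          have h2 : IsEmpty {y : Cn n → Bool // ¬ (n0 ≤ n →
            ¬ (Real.exp (-(c * n)) * Nat.card (SimpleGraph (Fin n)) <
              (Nat.card {G : SimpleGraph (Fin n) // Mate y G} : ℝ)))} := by
            refine ⟨?_⟩
            rintro ⟨y, hy⟩
            exact hy fun h3 => absurd h3 h
          rw [Nat.card_of_isEmpty, Nat.cast_zero, zero_div]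
        rw [h1]
        positivity)
  -- counting
  have hN : ∀ n : ℕ, (0 : ℝ) < Nat.card (SimpleGraph (Fin n)) := by
    intro n
    have : 0 < Nat.card (SimpleGraph (Fin n)) := Nat.card_pos
    exact_mod_cast this
  have hbad : ∀ n : ℕ, n0 ≤ n → (Nat.card {G : SimpleGraph (Fin n) // ¬ Unq (ofBits x) G} : ℝ) ≤
      Real.exp (-(c * n)) * Nat.card (SimpleGraph (Fin n)) := by
    intro n hn
    have h1 := not_lt.1 (hx n hn)
    refine le_trans ?_ h1
    have h2 : Nat.card {G : SimpleGraph (Fin n) // ¬ Unq (ofBits x) G} ≤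
        Nat.card {G : SimpleGraph (Fin n) // Mate (fun a : Cn n => x a.1) G} := by
      refine Nat.card_le_card_of_injective (fun G => ⟨G.1, trn x n G.1 G.2⟩) ?_
      rintro ⟨G, hG⟩ ⟨H, hH⟩ h
      simp only [Subtype.mk.injEq] at h
      subst h
      rfl
    exact_mod_cast h2
  have hsum : ∀ n : ℕ, (Nat.card {G : SimpleGraph (Fin n) // Unq (ofBits x) G} : ℝ) +
      Nat.card {G : SimpleGraph (Fin n) // ¬ Unq (ofBits x) G} = Nat.card (SimpleGraph (Fin n)) := by
    intro n
    have h1 : Nat.card {G : SimpleGraph (Fin n) // Unq (ofBits x) G} +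
        Nat.card {G : SimpleGraph (Fin n) // ¬ Unq (ofBits x) G} =
        Nat.card (SimpleGraph (Fin n)) := by
      rw [← Nat.card_sum]
      exact Nat.card_congr (Equiv.sumCompl _)
    exact_mod_cast h1
  have hexp : Tendsto (fun n : ℕ => Real.exp (-(c * n))) atTop (𝓝 0) := by
    refine Real.tendsto_exp_neg_atTop_nhds_zero.comp ?_
    exact (tendsto_natCast_atTop_atTop (R := ℝ)).const_mul_atTop hc
  have hlow : ∀ n : ℕ, n0 ≤ n → 1 - Real.exp (-(c * n)) ≤
      (Nat.card {G : SimpleGraph (Fin n) // Unq (ofBits x) G} : ℝ) /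
        Nat.card (SimpleGraph (Fin n)) := by
    intro n hn
    rw [le_div_iff₀ (hN n)]
    have h1 := hbad n hn
    have h2 := hsum n
    linarith
  refine ⟨ofBits x, ⟨⟨Fin 1, inferInstance, ⊥, ?_⟩, ?_⟩, ⟨c, hc, ?_⟩, ?_⟩
  · exact Or.inl (by simp)
  · -- some graph is not in the property
    by_contra hall
    push Not at hall
    have hall' : ∀ (V : Type) (_ : Finite V) (G : SimpleGraph V), (ofBits x).mem V G := hall
    have h1 : ∀ᶠ n : ℕ in atTop, Real.exp (-(c * n)) < 1 :=
      hexp.eventually (gt_mem_nhds zero_lt_one)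
    obtain ⟨n, hn1, hn2, hn3⟩ :=
      (h1.and ((eventually_ge_atTop n0).and (eventually_ge_atTop 2))).exists
    have h2 : 0 < (Nat.card {G : SimpleGraph (Fin n) // Unq (ofBits x) G} : ℝ) := by
      have h3 := hlow n hn2
      rw [le_div_iff₀ (hN n)] at h3
      have h4 : 0 < (1 - Real.exp (-(c * n))) * Nat.card (SimpleGraph (Fin n)) :=
        mul_pos (by linarith) (hN n)
      linarith
    have h5 : Nonempty {G : SimpleGraph (Fin n) // Unq (ofBits x) G} := by
      by_contra hne
      rw [not_nonempty_iff] at hne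
      rw [Nat.card_of_isEmpty] at h2
      simp at h2
    obtain ⟨G, hG⟩ := h5
    obtain ⟨e⟩ := hG n ⊥ (hpol_all _ hall' _ _)
    obtain ⟨f⟩ := hG n ⊤ (hpol_all _ hall' _ _)
    have e0 : (⊥ : SimpleGraph (Fin n)) ≃g (⊤ : SimpleGraph (Fin n)) := e.symm.trans f
    let a : Fin n := ⟨0, by omega⟩
    let b : Fin n := ⟨1, by omega⟩
    have hab : a ≠ b := by
      intro h
      have := congrArg Fin.val h
      simp [a, b] at this
    have h6 : (⊤ : SimpleGraph (Fin n)).Adj (e0 a) (e0 b) := fun h => hab (e0.injective h)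
    have h7 := e0.map_adj_iff.1 h6
    exact h7
  · filter_upwards [eventually_ge_atTop n0] with n hn
    exact hbad n hn
  · have h1 : Tendsto (fun n : ℕ => 1 - Real.exp (-(c * n))) atTop (𝓝 1) := by
      have := (tendsto_const_nhds (x := (1 : ℝ)) (f := (atTop : Filter ℕ))).sub hexp
      rwa [sub_zero] at this
    refine tendsto_of_tendsto_of_tendsto_of_le_of_le' h1 tendsto_const_nhds ?_ ?_
    · filter_upwards [eventually_ge_atTop n0] with n hn
      exact hlow n hn
    · refine Eventually.of_forall fun n => ?_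
      rw [div_le_one (hN n)]
      have h2 := hsum n
      have h3 : (0 : ℝ) ≤ Nat.card {G : SimpleGraph (Fin n) // ¬ Unq (ofBits x) G} :=
        Nat.cast_nonneg _
      linarith

end

end Pool.Agent.HAR.H75
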