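import Pool.Agent.HAR.Stmts

/-!
# HAR, row NU3: the size of the group (helper75)
-/

namespace Pool.Agent.HAR.H75

open Finset Filter Topology Pool.Agent.HAR

noncomputable section

theorem log_small (ε : ℝ) (hε : 0 < ε) : ∀ᶠ n : ℕ in atTop, Real.log n ≤ ε * n := by
  have h1 := (Real.isLittleO_log_id_atTop.bound hε)
  have h2 := tendsto_natCast_atTop_atTop (R := ℝ) |>.eventually h1
  filter_upwards [h2] with n hn
  simp only [id, Real.norm_eq_abs] at hn
  have h3 : |(n : ℝ)| = n := abs_of_nonneg (Nat.cast_nonneg n)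
  rw [h3] at hn
  exact (le_abs_self _).trans hn

/-- one factor -/
theorem factor (n t : ℕ) (hn : 0 < n) (hL : 0 < LL n) (het : 0 < et n) (hQ : 1 ≤ QQ n t)
    (hC : 0 < (uu n).choose t) :
    1 / 2 * Real.log ((uu n).choose t) + 1 / 2 * Real.log (n.choose (2 * kk n)) -
      (Real.log 64 + 7 / 2 * Real.log n) ≤ Real.log (QQ n t) := by
  have hn' : (0 : ℝ) < n := by exact_mod_cast hn
  have hC' : (0 : ℝ) < ((uu n).choose t : ℝ) := by exact_mod_cast hC
  set y : ℝ := Real.sqrt (MM n t) / (16 * et n) with hy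
  have hQd : QQ n t = ⌊y⌋₊ := rfl
  have hy1 : 1 ≤ y := by
    by_contra h
    rw [hQd, Nat.floor_eq_zero.2 (not_le.1 h)] at hQ
    omega
  have hQy : y / 2 ≤ QQ n t := by
    have h1 := Nat.lt_floor_add_one y
    rw [← hQd] at h1
    have h2 : (1 : ℝ) ≤ QQ n t := by exact_mod_cast hQ
    linarith
  have hy0 : 0 < y / 2 := by linarith
  have hlog : Real.log (y / 2) ≤ Real.log (QQ n t) := Real.log_le_log hy0 hQy
  refine le_trans ?_ hlog
  -- the binomial coefficient and LL
  have hb : (0 : ℝ) < (n.choose (2 * kk n) : ℝ) := by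
    have h1 : 0 < n.choose (2 * kk n) := by
      by_contra h
      have h2 : n.choose (2 * kk n) = 0 := by omega
      have h3 : LL n = 0 := by
        unfold LL
        rw [h2, Nat.zero_div]
      omega
    exact_mod_cast h1
  have hL' : (0 : ℝ) < LL n := by exact_mod_cast hL
  have hL1 : (1 : ℝ) ≤ LL n := by exact_mod_cast hL
  have hLb : (n.choose (2 * kk n) : ℝ) ≤ 2 * LL n * (n : ℝ) ^ 5 := by
    have h1 : n.choose (2 * kk n) < (LL n + 1) * n ^ 5 := by
      unfold LL
      have h5 : 0 < n ^ 5 := by positivity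
      rw [add_mul, one_mul]
      have h6 := Nat.div_add_mod (n.choose (2 * kk n)) (n ^ 5)
      have h7 := Nat.mod_lt (n.choose (2 * kk n)) h5
      have h8 : n ^ 5 * (n.choose (2 * kk n) / n ^ 5) = n.choose (2 * kk n) / n ^ 5 * n ^ 5 :=
        mul_comm _ _
      omega
    have h2 : (n.choose (2 * kk n) : ℝ) < (LL n + 1) * (n : ℝ) ^ 5 := by exact_mod_cast h1
    have h3 : ((LL n : ℝ) + 1) * (n : ℝ) ^ 5 ≤ 2 * LL n * (n : ℝ) ^ 5 := by
      have : (LL n : ℝ) + 1 ≤ 2 * LL n := by linarith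
      gcongr
    linarith
  have hlogL : Real.log (n.choose (2 * kk n)) ≤ Real.log 2 + Real.log (LL n) + 5 * Real.log n := by
    have h1 := Real.log_le_log hb hLb
    rw [Real.log_mul (by positivity) (by positivity), Real.log_mul (by norm_num) hL'.ne',
      Real.log_pow] at h1
    push_cast at h1
    linarith
  have hM0 : 0 < MM n t := by
    unfold MM
    positivity
  have hlogy : Real.log (y / 2) = 1 / 2 * (Real.log ((uu n).choose t) - Real.log 2) -
      Real.log 32 - Real.log n + 1 / 2 * Real.log (LL n) := by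
    have h1 : y / 2 = Real.sqrt (MM n t) / (32 * et n) := by
      rw [hy]
      field_simp
      norm_num
    rw [h1, Real.log_div (by positivity) (by positivity), Real.log_sqrt hM0.le,
      Real.log_mul (by norm_num) het.ne']
    unfold MM et
    rw [Real.log_div hC'.ne' (by norm_num), Real.log_div hn'.ne' (by positivity),
      Real.log_sqrt hL'.le]
    ring
  rw [hlogy]
  have h64 : Real.log 64 = Real.log 32 + Real.log 2 := by
    rw [← Real.log_mul (by norm_num) (by norm_num)]
    norm_num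
  rw [h64]
  linarith

/-- row NU3 -/
theorem nu3 (nu1 : Nu1Stmt) (cpr : CprStmt) (nu2 : Nu2Stmt) : Nu3Stmt := by
  unfold Nu3Stmt
  filter_upwards [nu1, nu2, log_small (1 / 100000) (by norm_num), eventually_ge_atTop 1000000]
    with n h1 h2 hlog hn
  obtain ⟨hL, -, het, -, -, hu2, ht2, -, -, hQ⟩ := h2
  have hn1 : (1000000 : ℝ) ≤ n := by exact_mod_cast hn
  have hn0 : 0 < n := by omega
  -- bounds for the parameters
  have hk1 : n ≤ 12 * kk n := by
    unfold kk
    omega
  have hk2 : 12 * kk n ≤ n + 11 := by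
    unfold kk
    omega
  have hu : uu n = n - 2 * kk n := rfl
  have hu1 : 5 * n ≤ 6 * uu n + 11 := by omega
  have hu3 : 6 * uu n ≤ 5 * n := by omega
  have htt : 100 * tt n ≤ n + 99 := by
    unfold tt
    omega
  have htu : tt n ≤ uu n := by omega
  have hu1' : 5 * (n : ℝ) ≤ 6 * (uu n : ℝ) + 11 := by exact_mod_cast hu1
  have hu3' : 6 * (uu n : ℝ) ≤ 5 * (n : ℝ) := by exact_mod_cast hu3
  have htt' : 100 * (tt n : ℝ) ≤ (n : ℝ) + 99 := by exact_mod_cast htt
  have htu' : (tt n : ℝ) ≤ (uu n : ℝ) := by exact_mod_cast htu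
  set u : ℝ := (uu n : ℝ) with hud
  set t0 : ℝ := (tt n : ℝ) with ht0d
  have ht00 : 0 ≤ t0 := Nat.cast_nonneg _
  have hu0 : 0 ≤ u := Nat.cast_nonneg _
  have l2a : Real.log 2 < 0.6931471808 := Real.log_two_lt_d9
  have l2b : 0.6931471803 < Real.log 2 := Real.log_two_gt_d9
  -- sum of logarithms
  have hQpos : ∀ t ∈ Ico (tt n) (uu n), (0 : ℝ) < (QQ n t : ℝ) := by
    intro t ht
    have h3 := (hQ t (mem_Ico.1 ht).1 (mem_Ico.1 ht).2).2.1
    exact_mod_cast h3
  have hsum : ∑ t ∈ Ico (tt n) (uu n), (1 / 2 * Real.log ((uu n).choose t) +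
      1 / 2 * Real.log (n.choose (2 * kk n)) - (Real.log 64 + 7 / 2 * Real.log n)) ≤
      ∑ t ∈ Ico (tt n) (uu n), Real.log (QQ n t) := by
    refine Finset.sum_le_sum fun t ht => ?_
    have h3 := hQ t (mem_Ico.1 ht).1 (mem_Ico.1 ht).2
    exact factor n t hn0 hL het h3.2.1 (Nat.choose_pos (mem_Ico.1 ht).2.le)
  have hcard : ((Ico (tt n) (uu n)).card : ℝ) = u - t0 := by
    rw [Nat.card_Ico, Nat.cast_sub htu]
  have hsum2 : ∑ t ∈ Ico (tt n) (uu n), (1 / 2 * Real.log ((uu n).choose t) +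
      1 / 2 * Real.log (n.choose (2 * kk n)) - (Real.log 64 + 7 / 2 * Real.log n)) =
      1 / 2 * (∑ t ∈ Ico (tt n) (uu n), Real.log ((uu n).choose t)) +
        (u - t0) * (1 / 2 * Real.log (n.choose (2 * kk n)) -
          (Real.log 64 + 7 / 2 * Real.log n)) := by
    rw [Finset.mul_sum, ← hcard, ← nsmul_eq_mul, ← Finset.sum_const, ← Finset.sum_add_distrib]
    refine Finset.sum_congr rfl fun t _ => ?_
    ring
  -- the sum of the binomial coefficients
  have hlow : ∑ t ∈ range (tt n), Real.log ((uu n).choose t) ≤ t0 * (u * Real.log 2) := by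
    have h3 : ∀ t ∈ range (tt n), Real.log ((uu n).choose t) ≤ u * Real.log 2 := by
      intro t ht
      have ht' : t ≤ uu n := (mem_range.1 ht).le.trans htu
      have h4 : ((uu n).choose t : ℝ) ≤ (2 : ℝ) ^ (uu n) := by
        exact_mod_cast Nat.choose_le_two_pow (uu n) t
      have h5 : (0 : ℝ) < ((uu n).choose t : ℝ) := by exact_mod_cast Nat.choose_pos ht'
      have h6 := Real.log_le_log h5 h4
      rw [Real.log_pow] at h6
      exact h6
    have h7 := Finset.sum_le_sum h3
    rw [Finset.sum_const, card_range, nsmul_eq_mul] at h7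
    exact h7
  have hsplit : ∑ t ∈ range (uu n + 1), Real.log ((uu n).choose t) =
      ∑ t ∈ range (tt n), Real.log ((uu n).choose t) +
        ∑ t ∈ Ico (tt n) (uu n), Real.log ((uu n).choose t) := by
    rw [Finset.sum_range_succ, Nat.choose_self, Nat.cast_one, Real.log_one, add_zero,
      Finset.sum_range_add_sum_Ico _ htu]
  have hfac : Real.log ((uu n).factorial) ≤ u * Real.log n := by
    have h3 : ((uu n).factorial : ℝ) ≤ (n : ℝ) ^ (uu n) := by
      have h4 : (uu n).factorial ≤ (uu n) ^ (uu n) := Nat.factorial_le_pow _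
      have h5 : (uu n) ^ (uu n) ≤ n ^ (uu n) := Nat.pow_le_pow_left (by omega) _
      exact_mod_cast h4.trans h5
    have h6 := Real.log_le_log (by exact_mod_cast Nat.factorial_pos (uu n)) h3
    rw [Real.log_pow] at h6
    exact h6
  have hcpr := cpr (uu n)
  have hmid : u * (u - 1) / 2 - u * Real.log n - t0 * (u * Real.log 2) ≤
      ∑ t ∈ Ico (tt n) (uu n), Real.log ((uu n).choose t) := by
    rw [hsplit] at hcpr
    linarith
  -- final estimate
  have hlog0 : 0 ≤ Real.log n := Real.log_nonneg (by linarith)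
  have h64 : Real.log 64 ≤ 5 := by
    have : Real.log 64 = 6 * Real.log 2 := by
      rw [show (64 : ℝ) = 2 ^ 6 by norm_num, Real.log_pow]
      norm_num
    rw [this]
    linarith
  have hut : 0 ≤ u - t0 := by linarith
  have key : 0.51 * (n : ℝ) ^ 2 * Real.log 2 ≤ ∑ t ∈ Ico (tt n) (uu n), Real.log (QQ n t) := by
    refine le_trans ?_ hsum
    rw [hsum2]
    have e1 : (u - t0) * (1 / 2 * (0.6477 * Real.log 2 * n) - (5 + 7 / 2 * Real.log n)) ≤
        (u - t0) * (1 / 2 * Real.log (n.choose (2 * kk n)) - (Real.log 64 + 7 / 2 * Real.log n)) := by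
      refine mul_le_mul_of_nonneg_left ?_ hut
      linarith
    have e2 : 1 / 2 * (u * (u - 1) / 2 - u * Real.log n - t0 * (u * Real.log 2)) ≤
        1 / 2 * (∑ t ∈ Ico (tt n) (uu n), Real.log ((uu n).choose t)) := by linarith
    refine le_trans ?_ (add_le_add e2 e1)
    -- polynomial inequality
    have hul : u ≤ n := by linarith
    have e3 : u * Real.log n ≤ n * (1 / 100000 * n) := mul_le_mul hul hlog hlog0 (by linarith)
    have e4 : (u - t0) * (5 + 7 / 2 * Real.log n) ≤ n * (5 + 7 / 2 * (1 / 100000 * n)) := by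
      refine mul_le_mul (by linarith) (by linarith) (by positivity) (by linarith)
    have e5 : 25 * (n : ℝ) ^ 2 - 150 * n ≤ 36 * (u * (u - 1)) := by
      have a1 : (5 * (n : ℝ) - 11) ^ 2 ≤ (6 * u) ^ 2 := by
        have : 0 ≤ 5 * (n : ℝ) - 11 := by linarith
        have : 5 * (n : ℝ) - 11 ≤ 6 * u := by linarith
        gcongr
      nlinarith
    have e6 : t0 * u ≤ ((n : ℝ) + 99) / 100 * (5 * n / 6) :=
      mul_le_mul (by linarith) (by linarith) hu0 (by linarith)
    have e7 : (5 * (n : ℝ) - 11) / 6 - ((n : ℝ) + 99) / 100 ≤ u - t0 := by linarith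
    have e8 : t0 * (u * Real.log 2) ≤ ((n : ℝ) + 99) / 100 * (5 * n / 6) * Real.log 2 := by
      have := mul_le_mul_of_nonneg_right e6 (by linarith : 0 ≤ Real.log 2)
      linarith
    have e9 : ((5 * (n : ℝ) - 11) / 6 - ((n : ℝ) + 99) / 100) * (1 / 2 * (0.6477 * Real.log 2 * n)) ≤
        (u - t0) * (1 / 2 * (0.6477 * Real.log 2 * n)) := by
      refine mul_le_mul_of_nonneg_right e7 ?_
      have : 0 ≤ Real.log 2 := by linarith
      positivity
    have e10 : 0.2504 * Real.log 2 ≤ 25 / 144 := by linarith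
    have e11 : 0.2504 * Real.log 2 * (n : ℝ) ^ 2 ≤ 25 / 144 * (n : ℝ) ^ 2 :=
      mul_le_mul_of_nonneg_right e10 (by positivity)
    have e12 : (n : ℝ) * Real.log 2 ≤ n := by
      have := mul_le_mul_of_nonneg_left (by linarith : Real.log 2 ≤ 1) (by linarith : (0 : ℝ) ≤ n)
      linarith
    have e13 : 0.69 * (n : ℝ) ^ 2 ≤ Real.log 2 * (n : ℝ) ^ 2 :=
      mul_le_mul_of_nonneg_right (by linarith) (by positivity)
    have e14 : 1000000 * (n : ℝ) ≤ (n : ℝ) ^ 2 := by
      rw [sq]
      exact mul_le_mul_of_nonneg_right hn1 (by linarith)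
    nlinarith
  rw [Real.rpow_def_of_pos (by norm_num), ← Real.log_le_log_iff (Real.exp_pos _)
    (Finset.prod_pos hQpos), Real.log_exp, Real.log_prod (fun t ht => (hQpos t ht).ne')]
  linarith

end

end Pool.Agent.HAR.H75
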