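import Pool.Agent.HAR.Stmts

namespace Pool.Agent.HAR.H75

open Finset

theorem prd : PrdStmt := by
  intro K T _ E p hp
  have h1 : Nat.card {x : (Σ i, T i) → Bool // ∀ i, E i fun t => x ⟨i, t⟩} =
      ∏ i, Nat.card {y : T i → Bool // E i y} := by
    rw [← Nat.card_pi]
    apply Nat.card_congr
    refine Equiv.trans ?_ (Equiv.subtypePiEquivPi (p := fun i (y : T i → Bool) => E i y))
    exact Equiv.subtypeEquiv (Equiv.piCurry (fun _ _ => Bool)) (fun x => Iff.rfl)
  have h2 : Nat.card ((Σ i, T i) → Bool) = ∏ i, Nat.card (T i → Bool) := by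
    rw [← Nat.card_pi]
    exact Nat.card_congr (Equiv.piCurry (fun _ _ => Bool))
  have h3 : pr (fun x : (Σ i, T i) → Bool => ∀ i, E i fun t => x ⟨i, t⟩) = ∏ i, pr (E i) := by
    unfold pr
    rw [h1, h2, Finset.prod_div_distrib]
    push_cast
    rfl
  rw [h3]
  calc ∏ i, pr (E i) ≤ ∏ _i : Fin K, p := by
        apply Finset.prod_le_prod
        · intro i _
          unfold pr
          positivity
        · intro i _
          exact hp i
    _ = p ^ K := by simp

end Pool.Agent.HAR.H75
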