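import Pool.Agent.Helper10_HAR.TOP
import Pool.Agent.Helper95_HAR.COS
import Pool.Agent.Helper94_HAR.ANT
import Pool.Agent.Helper30_HAR.FOU
import Pool.Agent.Helper3_HAR.COND
import Pool.Agent.Helper46_HAR.PRB
import Pool.Agent.Helper91_HAR.MKV
import Pool.Agent.Helper91_HAR.BAD
import Pool.Agent.Helper1_HAR.LIN
import Pool.Agent.Helper1_HAR.COR
import Pool.Agent.Helper32_HAR.CNT
import Pool.Agent.Helper32_HAR.THD
import Pool.Agent.Helper67_HAR.PHA
import Pool.Agent.Helper82_HAR.PHB
import Pool.Agent.Helper17_HAR.UQP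
import Pool.Agent.Helper41_HAR.TYP
import Pool.Agent.Helper18_HAR.CVR
import Pool.Agent.Helper76_HAR.ONE
import Pool.Agent.Helper49_HAR.PRI
import Pool.Agent.Helper42_HAR.GRD
import Pool.Agent.Helper45_HAR.CHO
import Pool.Agent.Helper44_HAR.CPR
import Pool.Agent.Helper24_HAR.NU1
import Pool.Agent.Helper41_HAR.NU2
import Pool.Agent.Helper75_HAR.NU3
import Pool.Agent.Helper44_HAR.CLS
import Pool.Agent.Helper41_HAR.SEL
import Pool.Agent.Helper81_HAR.PAI
import Pool.Agent.Helper94_HAR.AVG
import Pool.Agent.Helper62_HAR.GLB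
import Pool.Agent.Helper65_HAR.TRN
import Pool.Agent.Helper75_HAR.FIN
import Pool.Agent.Helper75_HAR.PRD
import Pool.Agent.Helper19_HAR.PRM
import Pool.Agent.Helper83_HAR.GLU
import Pool.Agent.Helper55_HAR.GDU
import Pool.Agent.Helper9_HAR.FRS
import Pool.Agent.Helper56_HAR.REC
import Pool.Agent.Helper13_HAR.NEA
import Pool.Agent.Helper77_HAR.SPR

/-!
# HAR: the main theorem without hypotheses (helper75)
-/

namespace Pool.Agent.HAR.H75

open Pool.Agent.HAR

theorem cho_all : ChoStmt := H45.cho
theorem cpr_all : CprStmt := H44.cpr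
theorem nu1_all : Nu1Stmt := H24.nu1 cho_all
theorem nu2_all : Nu2Stmt := H41.nu2 nu1_all
theorem nu3_all : Nu3Stmt := nu3 nu1_all cpr_all nu2_all
theorem prb_all : PrbStmt := H46.prb
theorem mkv_all : MkvStmt := H91.mkv
theorem cnt_all : CntStmt := H32.cnt
theorem thd_all : ThdStmt := H32.thd
theorem pha_all : PhaStmt := H67.pha cnt_all thd_all prb_all
theorem phb_all : PhbStmt := H82.phb cnt_all thd_all prb_all
theorem uqp_all : UqpStmt := H17.uqp pha_all phb_all prb_all
theorem typ_all : TypStmt := H41.typ uqp_all mkv_all prb_all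
theorem cos_all : CosStmt := H95.cos
theorem ant_all : AntStmt := H94.ant cos_all
theorem fou_all : FouStmt := H30.fou
theorem con_all : ConStmt := H3.con
theorem top_all : TopStmt := H10.top
theorem one_all : OneStmt := H76.one
theorem cvr_all : CvrStmt := H18.cvr
theorem grd_all : GrdStmt := H42.grd
theorem pri_all : PriStmt := H49.pri
theorem cls_all : ClsStmt := H44.cls
theorem glb_all : GlbStmt := H62.glb
theorem trn_all : TrnStmt := H65.trn
theorem prd_all : PrdStmt := prd
theorem rec_all : RecStmt := H56.rec_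
theorem nea_all : NeaStmt := H13.nea
theorem spr_all : SprStmt := H77.spr top_all con_all prd_all ant_all prb_all
theorem bad_all : BadStmt := H91.bad spr_all prb_all
theorem lin_all : LinStmt := H1.lin rec_all
theorem cor_all : CorStmt := H1.cor bad_all lin_all fou_all cos_all con_all prb_all
theorem prm_all : PrmStmt := H19.prm
theorem glu_all : GluStmt := H83.glu
theorem frs_all : FrsStmt := H9.frs prm_all cvr_all one_all glu_all prb_all
theorem gdu_all : GduStmt := H55.gdu
theorem fam_all : FamStmt := H49.fam frs_all gdu_all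
theorem sel_all : SelStmt := H41.sel fam_all grd_all nea_all pri_all nu2_all cls_all
theorem pai_all : PaiStmt := H81.pai sel_all cor_all nu2_all nu3_all
theorem avg_all : AvgStmt := H94.avg pai_all typ_all mkv_all prb_all

/-- the main theorem of the squad HAR, without hypotheses -/
theorem main : MainStmt := fin avg_all glb_all trn_all

end Pool.Agent.HAR.H75
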